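import Mathlib
import Pool.Agent.Helper870.BPEps

set_option autoImplicit false

open Finset

namespace Pool.Agent.Results.MP_ce44ee_pr.RapidMixing

/-- Labelled simple graphs with vertex set `{0, …, n-1}`. -/
abbrev Gr (n : ℕ) : Type := SimpleGraph (Fin n)

open Classical in
/-- The stabiliser of the labelled graph `α` in the symmetric group on the vertices:
the permutations `σ` with `σ x ~ σ y ↔ x ~ y` for all `x, y`. -/
noncomputable def stab {n : ℕ} (α : Gr n) : Finset (Equiv.Perm (Fin n)) :=
  univ.filter (fun σ => ∀ x y, α.Adj (σ x) (σ y) ↔ α.Adj x y)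

open Classical in
/-- The labelled graphs fixed by the vertex permutation `σ`. -/
noncomputable def fixed {n : ℕ} (σ : Equiv.Perm (Fin n)) : Finset (Gr n) :=
  univ.filter (fun α => ∀ x y, α.Adj (σ x) (σ y) ↔ α.Adj x y)

open Classical in
/-- Transition probabilities of the orbit-sampling process: pick `σ` uniformly in the stabiliser
of `α`, then `β` uniformly among the graphs fixed by `σ`. -/
noncomputable def kernel {n : ℕ} (α β : Gr n) : ℝ :=
  ∑ σ ∈ stab α, (1 / ((stab α).card : ℝ)) * (if β ∈ fixed σ then 1 / ((fixed σ).card : ℝ) else 0)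

open Classical in
/-- The `t`-step distribution of the process started at `α`. -/
noncomputable def law {n : ℕ} (α : Gr n) : ℕ → Gr n → ℝ
  | 0, β => if β = α then 1 else 0
  | t + 1, β => ∑ γ, law α t γ * kernel γ β

/-- The stationary distribution, proportional to the size of the stabiliser; by the
orbit-counting lemma it gives every isomorphism class the same mass. -/
noncomputable def stationary {n : ℕ} (β : Gr n) : ℝ :=
  ((stab β).card : ℝ) / ∑ γ : Gr n, ((stab γ).card : ℝ)

/-- Total variation distance of two real functions on the graphs. -/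
noncomputable def tv {n : ℕ} (μ ν : Gr n → ℝ) : ℝ := (1 / 2) * ∑ β, |μ β - ν β|

theorem inc_iff {n : ℕ} (σ : Equiv.Perm (Fin n)) (α : Gr n) :
    Pool.Agent.Helper870.BP.Inc σ α ↔ ∀ x y, α.Adj (σ x) (σ y) ↔ α.Adj x y := by
  unfold Pool.Agent.Helper870.BP.Inc
  constructor
  · intro h x y
    have : (SimpleGraph.comap (⇑σ) α).Adj x y ↔ α.Adj x y := by rw [h]
    exact this
  · intro h
    ext x y
    exact h x y

theorem card_stab {n : ℕ} (α : Gr n) :
    ((stab α).card : ℝ) = Pool.Agent.Helper870.BP.cK Pool.Agent.Helper870.BP.Inc α := by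
  classical
  unfold stab Pool.Agent.Helper870.BP.cK
  congr 2
  ext σ
  simp only [Finset.mem_filter, Finset.mem_univ, true_and]
  exact (inc_iff σ α).symm

theorem card_fixed {n : ℕ} (σ : Equiv.Perm (Fin n)) :
    ((fixed σ).card : ℝ) = Pool.Agent.Helper870.BP.cF Pool.Agent.Helper870.BP.Inc σ := by
  classical
  unfold fixed Pool.Agent.Helper870.BP.cF
  congr 2
  ext α
  simp only [Finset.mem_filter, Finset.mem_univ, true_and]
  exact (inc_iff σ α).symm

theorem stationary_eq {n : ℕ} (β : Gr n) :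
    stationary β = Pool.Agent.Helper870.BP.stat Pool.Agent.Helper870.BP.Inc β := by
  unfold stationary Pool.Agent.Helper870.BP.stat
  rw [card_stab, Finset.sum_congr rfl fun γ _ => card_stab γ]

theorem step_kernel {n : ℕ} (μ : Gr n → ℝ) (β : Gr n) :
    ∑ γ, μ γ * kernel γ β =
      Pool.Agent.Helper870.BP.step Pool.Agent.Helper870.BP.Inc μ β := by
  classical
  unfold Pool.Agent.Helper870.BP.step Pool.Agent.Helper870.BP.nu
  have h1 : ∀ γ : Gr n, kernel γ β = ∑ σ : Equiv.Perm (Fin n),
      if Pool.Agent.Helper870.BP.Inc σ γ ∧ Pool.Agent.Helper870.BP.Inc σ β then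
        1 / (Pool.Agent.Helper870.BP.cK Pool.Agent.Helper870.BP.Inc γ *
          Pool.Agent.Helper870.BP.cF Pool.Agent.Helper870.BP.Inc σ) else 0 := by
    intro γ
    unfold kernel
    rw [← Finset.sum_filter_add_sum_filter_not univ (fun σ => σ ∈ stab γ)]
    have e1 : (univ.filter (fun σ : Equiv.Perm (Fin n) => σ ∈ stab γ)) = stab γ := by
      ext σ; simp
    rw [e1]
    have e2 : ∑ σ ∈ univ.filter (fun σ : Equiv.Perm (Fin n) => ¬ σ ∈ stab γ),
        (if Pool.Agent.Helper870.BP.Inc σ γ ∧ Pool.Agent.Helper870.BP.Inc σ β then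
        1 / (Pool.Agent.Helper870.BP.cK Pool.Agent.Helper870.BP.Inc γ *
          Pool.Agent.Helper870.BP.cF Pool.Agent.Helper870.BP.Inc σ) else 0) = 0 := by
      apply Finset.sum_eq_zero
      intro σ hσ
      rw [Finset.mem_filter] at hσ
      rw [if_neg]
      rintro ⟨h1, _⟩
      apply hσ.2
      unfold stab
      rw [Finset.mem_filter]
      exact ⟨Finset.mem_univ _, (inc_iff σ γ).1 h1⟩
    rw [e2, add_zero]
    apply Finset.sum_congr rfl
    intro σ hσ
    unfold stab at hσ
    rw [Finset.mem_filter] at hσ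
    have hγ : Pool.Agent.Helper870.BP.Inc σ γ := (inc_iff σ γ).2 hσ.2
    by_cases hβ : Pool.Agent.Helper870.BP.Inc σ β
    · have hm : β ∈ fixed σ := by
        unfold fixed
        rw [Finset.mem_filter]
        exact ⟨Finset.mem_univ _, (inc_iff σ β).1 hβ⟩
      rw [if_pos hm, if_pos ⟨hγ, hβ⟩, card_stab, card_fixed, one_div_mul_one_div]
    · have hm : β ∉ fixed σ := by
        unfold fixed
        rw [Finset.mem_filter]
        exact fun h => hβ ((inc_iff σ β).2 h.2)
      rw [if_neg hm, if_neg (fun h => hβ h.2), mul_zero]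
  rw [Finset.sum_congr rfl fun γ _ => by rw [h1 γ, Finset.mul_sum]]
  rw [Finset.sum_comm]
  apply Finset.sum_congr rfl
  intro σ _
  by_cases hβ : Pool.Agent.Helper870.BP.Inc σ β
  · rw [if_pos hβ, Finset.sum_div]
    apply Finset.sum_congr rfl
    intro γ _
    by_cases hγ : Pool.Agent.Helper870.BP.Inc σ γ
    · rw [if_pos ⟨hγ, hβ⟩, if_pos hγ]
      rw [div_div, mul_one_div]
    · rw [if_neg (fun hh => hγ hh.1), if_neg hγ]
      simp
  · rw [if_neg hβ]
    apply Finset.sum_eq_zero
    intro γ _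
    rw [if_neg (fun hh => hβ hh.2), mul_zero]

theorem law_iter {n : ℕ} (α : Gr n) (t : ℕ) :
    law α t = Pool.Agent.Helper870.BP.iter Pool.Agent.Helper870.BP.Inc
      (Pool.Agent.Helper870.BP.pm α) t := by
  induction t with
  | zero =>
    funext β
    unfold law Pool.Agent.Helper870.BP.iter Pool.Agent.Helper870.BP.pm
    rfl
  | succ t ih =>
    funext β
    have h1 : law α (t + 1) β = ∑ γ, law α t γ * kernel γ β := rfl
    have h2 : Pool.Agent.Helper870.BP.iter Pool.Agent.Helper870.BP.Inc
      (Pool.Agent.Helper870.BP.pm α) (t + 1) β =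
      Pool.Agent.Helper870.BP.step Pool.Agent.Helper870.BP.Inc
        (Pool.Agent.Helper870.BP.iter Pool.Agent.Helper870.BP.Inc
      (Pool.Agent.Helper870.BP.pm α) t) β := rfl
    rw [h1, h2, step_kernel, ih]

/-- **The orbit-sampling (Burnside) process on graphs is rapidly mixing**: there is an absolute
constant `C` such that for every `n ≥ 1`, every start graph `α` and every accuracy `0 < ε < 1`,
the process is within total variation distance `ε` of its stationary distribution at all times
`t ≥ C n² (1 + log (1/ε))`. -/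
theorem result : ∃ C : ℝ, 0 < C ∧ ∀ n : ℕ, 1 ≤ n → ∀ ε : ℝ, 0 < ε → ε < 1 →
    ∀ α : Gr n, ∀ t : ℕ, C * (n : ℝ) ^ 2 * (1 + Real.log (1 / ε)) ≤ t →
      tv (law α t) stationary ≤ ε := by
  classical
  obtain ⟨C, hC⟩ := Pool.Agent.Helper870.BP.main2
  refine ⟨8 * (C + 1), by positivity, fun n hn ε hε hε1 α t ht => ?_⟩
  set T : ℕ := (C + 1) * (n + 1) ^ 2 with hT
  have hT' : ∀ x : Gr n, ∑ y, |Pool.Agent.Helper870.BP.iter Pool.Agent.Helper870.BP.Inc
      (Pool.Agent.Helper870.BP.pm x) T y -
        Pool.Agent.Helper870.BP.stat Pool.Agent.Helper870.BP.Inc y| ≤ 1 / 2 := by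
    intro x
    have h := hC n x (fun t => Pool.Agent.Helper870.BP.iter Pool.Agent.Helper870.BP.Inc
      (Pool.Agent.Helper870.BP.pm x) t)
      (by unfold Pool.Agent.Helper870.BP.iter Pool.Agent.Helper870.BP.pm; simp)
      (by intro β hβ; unfold Pool.Agent.Helper870.BP.iter Pool.Agent.Helper870.BP.pm; simp [hβ])
      (fun t β => rfl) T (by rw [hT]; exact Nat.mul_le_mul_right _ (by omega))
    linarith
  have hlog : 0 ≤ Real.log (1 / ε) := Real.log_nonneg (by rw [le_div_iff₀ hε]; linarith)
  set m : ℕ := ⌈Real.log (1 / ε) / Real.log 2⌉₊ with hm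
  have hlog2 : 0 < Real.log 2 := Real.log_pos (by norm_num)
  have hm1 : Real.log (1 / ε) / Real.log 2 ≤ m := Nat.le_ceil _
  have hm2 : (m : ℝ) < Real.log (1 / ε) / Real.log 2 + 1 := Nat.ceil_lt_add_one (by positivity)
  have hpow : (1 / 2 : ℝ) ^ m ≤ ε := by
    have h1 : Real.log (1 / ε) ≤ m * Real.log 2 := by
      rwa [div_le_iff₀ hlog2] at hm1
    have h2 : 1 / ε ≤ 2 ^ m := by
      rw [← Real.log_le_log_iff (by positivity) (by positivity), Real.log_pow]
      exact h1
    rw [one_div_pow, one_div_le (by positivity) hε]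
    exact h2
  have hmT : m * T ≤ t := by
    have h1 : (m : ℝ) ≤ 2 * (1 + Real.log (1 / ε)) := by
      have h2 : Real.log (1 / ε) / Real.log 2 ≤ 2 * Real.log (1 / ε) := by
        rw [div_le_iff₀ hlog2]
        have h3 : (0.6931471803 : ℝ) < Real.log 2 := Real.log_two_gt_d9
        nlinarith
      linarith
    have hn' : (1:ℝ) ≤ n := by exact_mod_cast hn
    have h4 : ((n : ℝ) + 1) ^ 2 ≤ 4 * (n : ℝ) ^ 2 := by nlinarith
    have h5 : ((m * T : ℕ) : ℝ) ≤ t := by
      rw [hT]
      push_cast
      calc (m : ℝ) * (((C : ℝ) + 1) * ((n : ℝ) + 1) ^ 2)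
          ≤ (2 * (1 + Real.log (1 / ε))) * (((C : ℝ) + 1) * (4 * (n : ℝ) ^ 2)) := by
            apply mul_le_mul h1 _ (by positivity) (by positivity)
            exact mul_le_mul_of_nonneg_left h4 (by positivity)
        _ = 8 * (C + 1) * (n : ℝ) ^ 2 * (1 + Real.log (1 / ε)) := by ring
        _ ≤ t := ht
    exact_mod_cast h5
  have h := Pool.Agent.Helper870.BP.decay_all Pool.Agent.Helper870.BP.he'
    Pool.Agent.Helper870.BP.hF' T hT' α m t hmT
  unfold tv
  rw [law_iter]
  refine le_trans (le_of_eq ?_) (h.trans hpow)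
  congr 1
  exact Finset.sum_congr rfl fun β _ => by rw [stationary_eq]

end Pool.Agent.Results.MP_ce44ee_pr.RapidMixing
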